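import Pool.Agent.H44.ND.UPN
import Pool.Agent.H57.CF.UPF
import Pool.Agent.H47.PS.CHD
import Pool.Agent.H56.RD.HUR

/-!
# Module ONE: the family of the maps which fix infinity

`up_one`: if maps of degree `d` with more attracted critical points are arbitrarily near a map which fixes infinity then such maps which
fix infinity are arbitrarily near. PROOF. `w` near `v`; `Lin 0 w` (coordinate `1/z`) is near `Lin 0 v`, which fixes `0`, so it has a
fixed point `p` near `0` (`hur_hit`), and `Lin p (Lin 0 w)` is near `Lin 0 (Lin 0 v) = v` (`lin_joint`) and fixes infinity.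
-/

set_option autoImplicit false

open Filter Topology Polynomial Metric Set

namespace Pool.Agent.H64.PF

open Pool.Agent.H44.Fatou Pool.Agent.H32.BT Pool.Agent.H79.Eul Pool.Agent.H79.Par
open Pool.Agent.H35.EX Pool.Agent.H44.RR Pool.Agent.H56.HR Pool.Agent.H44.RC Pool.Agent.H47.RJ
open Pool.Agent.H44.ND Pool.Agent.H79.ES Pool.Agent.H47.NM Pool.Agent.H56.RD Pool.Agent.H47.PS
open Pool.Agent.H57.CF (UpF)

variable {d : ℕ}

theorem comp_coeff {n : ℕ} (b : Fin (n + 1) → ℂ) (s : ℂ) (i : ℕ) :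
    ((pol b).comp (X + C s)).coeff i = ∑ j : Fin (n + 1), b j * (s ^ ((j : ℕ) - i) * ((j : ℕ).choose i : ℂ)) := by
  unfold pol
  rw [← coe_compRingHom_apply, map_sum, finsetSum_coeff]
  simp only [coe_compRingHom_apply]
  refine Finset.sum_congr rfl fun j _ => ?_
  rw [mul_comp, C_comp, X_pow_comp, coeff_C_mul, coeff_X_add_C_pow]

theorem comp_cont2 {n : ℕ} (i : ℕ) : Continuous fun q : ℂ × (Fin (n + 1) → ℂ) => ((pol q.2).comp (X + C q.1)).coeff i := by
  simp only [comp_coeff]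
  fun_prop

theorem lin_joint : Continuous fun q : ℂ × E d => (Lin q.1 q.2 : E d) := by
  refine Continuous.prodMk ?_ ?_
  · refine continuous_pi fun i => ?_
    show Continuous fun q : ℂ × E d => (cj1 q.1 d (pol q.2.1) (pol q.2.2)).coeff i
    unfold cj1
    simp only [coeff_reflect]
    exact (comp_cont2 (n := d) (revAt d i)).comp (continuous_fst.prodMk (continuous_snd.comp continuous_snd))
  · refine continuous_pi fun i => ?_
    show Continuous fun q : ℂ × E d => (cj2 q.1 d (pol q.2.1) (pol q.2.2)).coeff i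
    unfold cj2
    simp only [coeff_reflect, sub_comp, mul_comp, C_comp, coeff_sub, coeff_C_mul]
    exact ((comp_cont2 (n := d) (revAt d i)).comp (continuous_fst.prodMk (continuous_fst.comp continuous_snd))).sub
      (continuous_fst.mul ((comp_cont2 (n := d) (revAt d i)).comp
        (continuous_fst.prodMk (continuous_snd.comp continuous_snd))))

theorem refl_refl (n : ℕ) (P : Polynomial ℂ) : reflect n (reflect n P) = P := by
  ext i
  rw [coeff_reflect, coeff_reflect, revAt_invol]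

theorem lin0_1 (v : E d) : pol (Lin 0 v : E d).1 = reflect d (pol v.2) := by
  rw [chartNull_pol1]
  unfold cj1
  rw [C_0, add_zero, comp_X]

theorem lin0_2 (v : E d) : pol (Lin 0 v : E d).2 = reflect d (pol v.1) := by
  rw [chartNull_pol2]
  unfold cj2
  rw [C_0, add_zero, comp_X, zero_mul, sub_zero]

theorem cf_pol' {n : ℕ} (v : Fin (n + 1) → ℂ) : cf n (pol v) = v := funext fun i => pol_coeff v i

theorem lin_two (v : E d) : (Lin 0 (Lin 0 v) : E d) = v := by
  have e3 : pol (Lin 0 (Lin 0 v) : E d).1 = pol v.1 := by rw [lin0_1, lin0_2, refl_refl]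
  have e4 : pol (Lin 0 (Lin 0 v) : E d).2 = pol v.2 := by rw [lin0_2, lin0_1, refl_refl]
  refine Prod.ext ?_ ?_
  · rw [← cf_pol' (Lin 0 (Lin 0 v) : E d).1, ← cf_pol' v.1, e3]
  · rw [← cf_pol' (Lin 0 (Lin 0 v) : E d).2, ← cf_pol' v.2, e4]

theorem pol_ev {n : ℕ} : Continuous fun q : (Fin (n + 1) → ℂ) × ℂ => (pol q.1).eval q.2 := by
  unfold pol
  simp only [eval_finsetSum, eval_mul, eval_C, eval_pow, eval_X]
  fun_prop

/-- a map with last denominator coefficient 0 is in the family -/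
theorem ex_one (hd : 2 ≤ d) {u : E d} (h : u.2 (Fin.last d) = 0) :
    ex d 1 ((u.1, fun i : Fin (d - 1 + 1) => u.2 ⟨i, by omega⟩) : Em d 1) = u := by
  refine Prod.ext rfl (funext fun i => ?_)
  unfold ex
  by_cases hi : (i : ℕ) < d - 1 + 1
  · simp only [hi, dite_true]
  · simp only [hi, dite_false]
    have h1 : i = Fin.last d := by
      apply Fin.ext
      rw [Fin.val_last]
      omega
    rw [h1, h]

theorem up_one (hd : 2 ≤ d) {x : Em d 1} (hcop : IsCoprime (pol x.1) (pol x.2))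
    (hdeg : max (pol x.1).natDegree (pol x.2).natDegree = d) (hup : Up (ex d 1 x)) : UpF d 1 x := by
  obtain ⟨v, hv⟩ : ∃ v, v = ex d 1 x := ⟨_, rfl⟩
  have hvl : v.2 (Fin.last d) = 0 := by
    rw [hv]
    unfold ex
    have h1 : ¬ ((Fin.last d : Fin (d + 1)) : ℕ) < d - 1 + 1 := by rw [Fin.val_last]; omega
    simp only [h1, dite_false]
  have hp1 : pol v.1 = pol x.1 := by rw [hv]; exact (ex_pol x).1
  have hp2 : pol v.2 = pol x.2 := by rw [hv]; exact (ex_pol x).2
  have hx1 : (pol x.1).natDegree = d := by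
    have h1 := pol_deg x.1
    have h2 := pol_deg x.2
    omega
  have hv1 : v.1 (Fin.last d) ≠ 0 := by
    intro h0
    have e4 : (pol v.1).coeff d = v.1 (Fin.last d) := pol_coeff v.1 (Fin.last d)
    rw [h0, hp1] at e4
    have e5 : pol x.1 ≠ 0 := by
      intro h
      rw [h, natDegree_zero] at hx1
      omega
    have e6 := leadingCoeff_ne_zero.2 e5
    unfold leadingCoeff at e6
    rw [hx1] at e6
    exact e6 e4
  rw [← hv] at hup
  have hε : ∀ n : ℕ, (0 : ℝ) < 1 / ((n : ℝ) + 1) := fun n => by positivity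
  choose w hw hwc hwd hwN using fun n : ℕ => hup _ (hε n)
  have hwt : Tendsto w atTop (𝓝 v) := by
    rw [tendsto_iff_norm_sub_tendsto_zero]
    refine squeeze_zero (fun n => norm_nonneg _) (fun n => ?_) tendsto_one_div_add_atTop_nhds_zero_nat
    have h1 := hw n
    rw [mem_ball_iff_norm] at h1
    exact h1.le
  -- the coordinate `1/z`
  obtain ⟨V, hV⟩ : ∃ V : E d, V = Lin 0 v := ⟨_, rfl⟩
  obtain ⟨Wn, hWn⟩ : ∃ Wn : ℕ → E d, Wn = fun n => Lin 0 (w n) := ⟨_, rfl⟩
  have hWt : Tendsto Wn atTop (𝓝 V) := by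
    rw [hWn, hV]
    exact ((lin_cont 0).tendsto v).comp hwt
  obtain ⟨G0, φ0, K0, hch0, -, -, -⟩ := ch_mob (d := d) hd 0
  -- the fixed points
  obtain ⟨F, hF⟩ : ∃ F : E d → ℂ → ℂ, F = fun u z => (pol u.1).eval z - z * (pol u.2).eval z := ⟨_, rfl⟩
  have hFd : ∀ u, Differentiable ℂ (F u) := by
    intro u
    rw [hF]
    exact (pol u.1).differentiable.sub (differentiable_id.mul (pol u.2).differentiable)
  have hFc : Continuous fun q : E d × ℂ => F q.1 q.2 := by
    rw [hF]
    exact (pol_ev.comp ((continuous_fst.comp continuous_fst).prodMk continuous_snd)).sub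
      (continuous_snd.mul (pol_ev.comp ((continuous_snd.comp continuous_fst).prodMk continuous_snd)))
  have hJC : JC (fun n => F (Wn n)) (F V) univ := by
    intro z _
    have h1 : Tendsto (fun q : ℕ × ℂ => ((Wn q.1, q.2) : E d × ℂ)) (atTop ×ˢ 𝓝 z) (𝓝 (V, z)) := by
      rw [nhds_prod_eq]
      exact (hWt.comp tendsto_fst).prodMk tendsto_snd
    exact (hFc.tendsto (V, z)).comp h1
  have hV1 : (pol V.1).eval 0 = 0 := by
    rw [hV, lin0_1, ← coeff_zero_eq_eval_zero, coeff_reflect, revAt_le (Nat.zero_le _), Nat.sub_zero]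
    have h1 : (pol v.2).coeff d = v.2 (Fin.last d) := pol_coeff v.2 (Fin.last d)
    rw [h1, hvl]
  have hV2 : (pol V.2).eval 0 ≠ 0 := by
    rw [hV, lin0_2, ← coeff_zero_eq_eval_zero, coeff_reflect, revAt_le (Nat.zero_le _), Nat.sub_zero]
    have h1 : (pol v.1).coeff d = v.1 (Fin.last d) := pol_coeff v.1 (Fin.last d)
    rw [h1]
    exact hv1
  have hvc : IsCoprime (pol v.1) (pol v.2) := by rw [hp1, hp2]; exact hcop
  have hvd : max (pol v.1).natDegree (pol v.2).natDegree = d := by rw [hp1, hp2]; exact hdeg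
  obtain ⟨hVc, hVd, -⟩ := hch0.conj v hvc hvd
  rw [← hV] at hVc hVd
  have hF0 : F V 0 = 0 := by
    rw [hF]
    show (pol V.1).eval 0 - 0 * (pol V.2).eval 0 = 0
    rw [hV1, zero_mul, sub_zero]
  have hne : ¬ ∀ᶠ z in 𝓝 (0 : ℂ), F V z = F V 0 := by
    intro h
    rw [hF0] at h
    have h2 : (pol V.1 - X * pol V.2) = 0 := by
      apply Polynomial.eq_zero_of_infinite_isRoot
      refine (infinite_of_mem_nhds (0 : ℂ) h).mono ?_
      intro z hz
      have h3 : F V z = 0 := hz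
      rw [hF] at h3
      show (pol V.1 - X * pol V.2).eval z = 0
      rw [eval_sub, eval_mul, eval_X]
      exact h3
    have h3 : pol V.1 = X * pol V.2 := sub_eq_zero.1 h2
    have h4 : IsUnit (pol V.2) := by
      rw [h3] at hVc
      exact isCoprime_self.1 (IsCoprime.of_mul_left_right hVc)
    have h5 := natDegree_eq_zero_of_isUnit h4
    have h6 : (pol V.1).natDegree ≤ 1 := by
      rw [h3]
      refine natDegree_mul_le.trans ?_
      rw [natDegree_X, h5]
    omega
  have hhit : ∀ ε : ℝ, 0 < ε → ∀ᶠ n in atTop, ∃ p ∈ ball (0 : ℂ) ε, F (Wn n) p = 0 := by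
    intro ε hε
    have h1 := hur_hit isOpen_univ (fun k => (hFd (Wn k)).differentiableOn) hJC (mem_univ (0 : ℂ))
      (ball_mem_nhds (0 : ℂ) hε) hne
    rw [hF0] at h1
    exact h1
  -- the conclusion
  intro ε hε
  have hjt : Tendsto (fun q : ℂ × E d => (Lin q.1 q.2 : E d)) (𝓝 ((0 : ℂ), V)) (𝓝 v) := by
    have h1 := (lin_joint (d := d)).tendsto ((0 : ℂ), V)
    have h2 : (Lin 0 V : E d) = v := by rw [hV]; exact lin_two v
    rwa [h2] at h1
  have hjb := hjt.eventually (ball_mem_nhds v hε)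
  rw [nhds_prod_eq] at hjb
  obtain ⟨pa, hpa, pb, hpb, hab⟩ := Filter.eventually_prod_iff.1 hjb
  obtain ⟨η, hη, hηp⟩ := Metric.mem_nhds_iff.1 hpa
  obtain ⟨n, ⟨p, hp, hFp⟩, hWp⟩ := ((hhit η hη).and (hWt.eventually hpb)).exists
  have huv : (Lin p (Wn n) : E d) ∈ ball v ε := hab (hηp hp) hWp
  obtain ⟨u, hu⟩ : ∃ u : E d, u = Lin p (Wn n) := ⟨_, rfl⟩
  rw [← hu] at huv
  obtain ⟨hWc, hWd, hW0⟩ := hch0.conj (w n) (hwc n) (hwd n)
  have hWne : Wn n = Lin 0 (w n) := by rw [hWn]
  rw [← hWne] at hWc hWd hW0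
  obtain ⟨Gp, φp, Kp, hchp, -, -, -⟩ := ch_mob (d := d) hd p
  obtain ⟨huc, hud, hu0⟩ := hchp.conj (Wn n) hWc hWd
  rw [← hu] at huc hud hu0
  have hNA : NA u = NA (w n) := by
    rw [← na_conj (v0 := w n) (v := Wn n) φ0 (fun x => (hW0 x).symm)]
    exact na_conj φp fun x => (hu0 x).symm
  have hul : u.2 (Fin.last d) = 0 := by
    have h1 : (pol u.2).coeff d = u.2 (Fin.last d) := pol_coeff u.2 (Fin.last d)
    rw [← h1, hu, chartNull_pol2]
    unfold cj2
    rw [coeff_reflect, revAt_le le_rfl, Nat.sub_self, coeff_zero_eq_eval_zero, eval_comp, eval_add, eval_X, eval_C,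
      zero_add, eval_sub, eval_mul, eval_C]
    rw [hF] at hFp
    exact hFp
  obtain ⟨y, hy⟩ : ∃ y : Em d 1, y = (u.1, fun i : Fin (d - 1 + 1) => u.2 ⟨i, by omega⟩) := ⟨_, rfl⟩
  have hey : ex d 1 y = u := by rw [hy]; exact ex_one hd hul
  have hyx : ‖y - x‖ ≤ ‖u - v‖ := by
    rw [← hey, hv, Prod.norm_def, Prod.norm_def (ex d 1 y - ex d 1 x)]
    refine max_le_max le_rfl ?_
    rw [pi_norm_le_iff_of_nonneg (norm_nonneg _)]
    intro i
    have h1 : (y - x).2 i = (ex d 1 y - ex d 1 x).2 ⟨i, by omega⟩ := by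
      show y.2 i - x.2 i = (ex d 1 y).2 ⟨i, by omega⟩ - (ex d 1 x).2 ⟨i, by omega⟩
      unfold ex
      have h2 : (i : ℕ) < d - 1 + 1 := i.2
      simp only [h2, dite_true, Fin.eta]
    rw [h1]
    exact norm_le_pi_norm (ex d 1 y - ex d 1 x).2 ⟨i, by omega⟩
  refine ⟨y, ?_, ?_, ?_, ?_⟩
  · rw [mem_ball_iff_norm] at huv ⊢
    exact hyx.trans_lt huv
  · rw [← (ex_pol y).1, ← (ex_pol y).2, hey]
    exact huc
  · rw [← (ex_pol y).1, ← (ex_pol y).2, hey]
    exact hud
  · rw [hey, hNA, ← hv]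
    exact hwN n

end Pool.Agent.H64.PF
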