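import Pool.Agent.H64.PF.PPH
import Pool.Agent.H64.MF.FSF
import Pool.Agent.H57.CF.ALF

/-!
# Module PPF: the component property in the families `F(d,k)`

`pph_gen`: as `pph`, from the properties of the Fatou set and the theorem on splittings. `meet_conj`: transfer by a conjugacy of the sphere.
`pphF`: for maps of the families which are not in `UpF`, from the theorem `DisF` for generic maps.
-/

set_option autoImplicit false

open Filter Topology Polynomial Metric Set MeasureTheory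

namespace Pool.Agent.H64.PF

open Pool.Agent.H44.Fatou Pool.Agent.H32.BT Pool.Agent.H79.Eul Pool.Agent.H79.Par
open Pool.Agent.H35.EX Pool.Agent.H44.RR Pool.Agent.H56.HR Pool.Agent.H44.RC Pool.Agent.H47.RJ
open Pool.Agent.H44.ND Pool.Agent.H79.ES Pool.Agent.H44.CP Pool.Agent.H64.JS Pool.Agent.H44.RG
open Pool.Agent.H47.NM Pool.Agent.H57.CF Pool.Agent.H64.MF

variable {d k : ℕ} {v : E d}

/-- the component property -/
def Meet (v : E d) : Prop := ∀ c, IsCrit (Rf v) c → c ∈ JS (Rf v) →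
  (connectedComponentIn (KV v) c ∩ OC (Rf v) c).Nonempty

theorem pc_split_gen (hd : 2 ≤ d) (hcop : IsCoprime (pol v.1) (pol v.2))
    (hdeg : max (pol v.1).natDegree (pol v.2).natDegree = d) (hfs : ∀ z ∈ FS (Rf v), Att (Rf v) z)
    (hai : ∀ z, Att (Rf v) z → z ∈ FS (Rf v)) :
    ∃ G : Set (OnePoint ℂ), IsClosed G ∧ G ⊆ FS (Rf v) ∧ KV v ∪ G = PC (Rf v) := by
  obtain ⟨C, hC⟩ : ∃ C : Set (OnePoint ℂ), C = {c | IsCrit (Rf v) c ∧ c ∈ FS (Rf v)} := ⟨_, rfl⟩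
  have hCf : C.Finite := by
    have h : {z : OnePoint ℂ | IsCrit (Rf v) z}.Finite := crit_finite hcop (by rw [hdeg]; omega)
    rw [hC]
    exact h.subset fun z hz => hz.1
  obtain ⟨A, hA⟩ : ∃ A : OnePoint ℂ → Set (OnePoint ℂ), A = fun c => {y | ∃ n : ℕ, 1 ≤ n ∧ (Rf v)^[n] c = y} :=
    ⟨_, rfl⟩
  have hsub : ∀ c ∈ C, closure (A c) ⊆ FS (Rf v) := by
    intro c hc
    rw [hC] at hc
    obtain ⟨F, hF1, hF2, hF3⟩ := Pool.Agent.H44.NR.orb_cl hd hcop hdeg (hfs c hc.2)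
    have h1 : closure (A c) ⊆ F := by
      refine closure_minimal ?_ hF1
      rw [hA]
      rintro y ⟨n, -, rfl⟩
      exact hF3 n
    exact fun y hy => hai y (hF2 y (h1 hy))
  refine ⟨⋃ c ∈ C, closure (A c), hCf.isClosed_biUnion fun c _ => isClosed_closure, ?_, ?_⟩
  · intro y hy
    simp only [mem_iUnion] at hy
    obtain ⟨c, hc, hy⟩ := hy
    exact hsub c hc hy
  · rw [← hCf.closure_biUnion]
    unfold KV KJ PC
    rw [← closure_union]
    congr 1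
    ext y
    simp only [mem_union, mem_ofPred_eq, mem_iUnion, hA, hC, exists_prop]
    constructor
    · rintro (⟨c, h1, -, n, hn, h2⟩ | ⟨c, ⟨h1, -⟩, n, hn, h2⟩)
      · exact ⟨c, h1, n, hn, h2⟩
      · exact ⟨c, h1, n, hn, h2⟩
    · rintro ⟨c, h1, n, hn, h2⟩
      by_cases hcF : c ∈ FS (Rf v)
      · exact Or.inr ⟨c, ⟨h1, hcF⟩, n, hn, h2⟩
      · exact Or.inl ⟨c, h1, hcF, n, hn, h2⟩

theorem pph_gen (hd : 2 ≤ d) (hcop : IsCoprime (pol v.1) (pol v.2))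
    (hdeg : max (pol v.1).natDegree (pol v.2).natDegree = d) (hfs : ∀ z ∈ FS (Rf v), Att (Rf v) z)
    (hai : ∀ z, Att (Rf v) z → z ∈ FS (Rf v)) (hconc : ConcP (Rf v)) {c : OnePoint ℂ}
    (hc : IsCrit (Rf v) c) (hcJ : c ∈ JS (Rf v))
    (hdis : ∀ P1 P2 : Set (OnePoint ℂ), IsClosed P1 → IsClosed P2 → P1 ∪ P2 = PC (Rf v) ∪ {c} → Disjoint P1 P2 →
      c ∈ P1 → (∀ n : ℕ, 1 ≤ n → (Rf v)^[n] c ∈ P2) → False) :
    (connectedComponentIn (KV v) c ∩ OC (Rf v) c).Nonempty := by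
  by_contra hne
  have hK : IsClosed (KV v) := isClosed_closure
  have hKJ : KV v ⊆ JS (Rf v) := kj_sub (js_closed _) (js_inv hd hcop hdeg)
  have hcK : c ∈ KV v := by
    obtain ⟨r, e1, e2, -, e4⟩ := hconc.1 c hc hcJ
    exact om_kv e1 e2 e4
  obtain ⟨P1, P2, h1, h2, h12, hun, hc1, hO⟩ := Pool.Agent.H42.PR.split_of_comp hK.isCompact
    (isClosed_closure (s := {y | ∃ n : ℕ, 1 ≤ n ∧ (Rf v)^[n] c = y})) hcK
    (by
      rw [Set.disjoint_iff_inter_eq_empty]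
      exact not_nonempty_iff_eq_empty.1 hne)
  have hP2 : ∀ n : ℕ, 1 ≤ n → (Rf v)^[n] c ∈ P2 := by
    intro n hn
    exact hO ⟨subset_closure ⟨c, hc, hcJ, n, hn, rfl⟩, subset_closure ⟨n, hn, rfl⟩⟩
  obtain ⟨G, hG, hGF, hGP⟩ := pc_split_gen hd hcop hdeg hfs hai
  refine hdis P1 (P2 ∪ G) h1 (h2.union hG) ?_ ?_ hc1 fun n hn => Or.inl (hP2 n hn)
  · rw [← union_assoc, hun, hGP]
    have h3 : c ∈ PC (Rf v) := by
      rw [← hGP]
      exact Or.inl hcK
    rw [union_eq_self_of_subset_right (singleton_subset_iff.2 h3)]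
  · rw [disjoint_union_right]
    refine ⟨h12, ?_⟩
    rw [Set.disjoint_left]
    intro x hx hxG
    have h3 : x ∈ KV v := by
      rw [← hun]
      exact Or.inl hx
    exact hKJ h3 (hGF hxG)

theorem meet_conj (hd : 2 ≤ d) {w : E d} (hcop : IsCoprime (pol v.1) (pol v.2))
    (hdeg : max (pol v.1).natDegree (pol v.2).natDegree = d) (hcop' : IsCoprime (pol w.1) (pol w.2))
    (hdeg' : max (pol w.1).natDegree (pol w.2).natDegree = d) (φ : OnePoint ℂ ≃ₜ OnePoint ℂ)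
    (hφ : ∀ y, Rf w (φ y) = φ (Rf v y)) (hFS : ∀ x, φ x ∈ FS (Rf w) ↔ x ∈ FS (Rf v)) (H : Meet w) : Meet v := by
  have hJ : ∀ x, x ∈ JS (Rf v) ↔ φ x ∈ JS (Rf w) := fun x => not_congr (hFS x).symm
  intro c hc hcJ
  refine con_cmp (h := φ.subtype hJ) (js_closed _) (js_inv hd hcop hdeg) (js_inv hd hcop' hdeg')
    (fun c hc => crit_js hd hcop hdeg hc) (fun c hc => crit_js hd hcop' hdeg' hc) ?_ H c hc hcJ
  intro x y hxy
  show Rf w (φ x) = φ y
  rw [hφ, hxy]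

/-- the theorem on splittings for generic maps of the families -/
def DisF : Prop := ∀ d k : ℕ, 2 ≤ d → 2 ≤ k → k ≤ d → ∀ x : Em d k, GenM d k (pol x.1) (pol x.2) →
  ¬ UpF d k x → ∀ c : OnePoint ℂ, IsCrit (Rf (ex d k x)) c → c ∈ JS (Rf (ex d k x)) →
  ∀ P1 P2 : Set (OnePoint ℂ), IsClosed P1 → IsClosed P2 → P1 ∪ P2 = PC (Rf (ex d k x)) ∪ {c} → Disjoint P1 P2 →
  c ∈ P1 → (∀ n : ℕ, 1 ≤ n → (Rf (ex d k x))^[n] c ∈ P2) → False

theorem pphF (hdis : DisF) (hd : 2 ≤ d) (hfat : ∀ k : ℕ, 2 ≤ k → k ≤ d → volume {x : Em d k |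
      IsCoprime (pol x.1) (pol x.2) ∧ max (pol x.1).natDegree (pol x.2).natDegree = d ∧
      FS (Rf (ex d k x)) ≠ {z | Att (Rf (ex d k x)) z}} = 0) (hk : 2 ≤ k) (hkd : k ≤ d)
    {x : Em d k} (hcop : IsCoprime (pol x.1) (pol x.2))
    (hdeg : max (pol x.1).natDegree (pol x.2).natDegree = d) (hup : ¬ UpF d k x) : Meet (ex d k x) := by
  obtain ⟨l, y, φ, K, hl, hld, hg, hK, hφ, hup'⟩ := red_gen hd hk hkd hcop hdeg
  have hupy : ¬ UpF d l y := fun h => hup (hup' h)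
  have hcy := ex_cop hg.cop
  have hdy := ex_deg (genM_deg hg)
  have hcx : IsCoprime (pol (ex d k x).1) (pol (ex d k x).2) := ex_cop hcop
  have hdx : max (pol (ex d k x).1).natDegree (pol (ex d k x).2).natDegree = d := ex_deg hdeg
  refine meet_conj hd hcx hdx hcy hdy φ hφ (Pool.Agent.H76.SU.fs_conj hK hφ) ?_
  intro c hc hcJ
  refine pph_gen hd hcy hdy (fun z hz => fsF_gen hd hl hld (hfat l hl hld) hg hupy hz)
    (fun z hz => att_fs_ar (by omega) hcy hdy (P1F hd hl hld hg hupy).1 hz)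
    ((concF_gen hd hl hld hg).resolve_right hupy) hc hcJ ?_
  exact hdis d l hd hl hld y hg hupy c hc hcJ

end Pool.Agent.H64.PF
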