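import Mathlib
import Pool.Agent.H64.PC.Fin
import Pool.Agent.H64.MJ.FSA
import Pool.Agent.H57.CF.ALF
import Pool.Agent.H32.RB.Main

/-!
# Limit sets of recurrent critical points

The work is in `H57/CP`, `H44/CP`, `H31/CP` (velocities of repelling cycles, sums over backward orbits),
`H1/PU`, `H50/ST`, `H64/PC`, `H47/PS` (maps whose Julia set is the sphere), `H57/CF` (families, polynomials),
`H79/ES`, `H44/ND`, `H44/RC`, `H47/RJ`, `H76/SU`; the Fatou set: `H64/MJ`, `H56/RD`.
-/

set_option autoImplicit false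

namespace Pool.Agent.H64.PF

open Polynomial Filter Topology MeasureTheory

/-- `f` is the rational map `P/Q` on the sphere. -/
def IsMap (f : OnePoint ℂ → OnePoint ℂ) (P Q : Polynomial ℂ) : Prop :=
  Continuous f ∧
    ∀ z : ℂ, Q.eval z ≠ 0 → f (OnePoint.some z) = OnePoint.some (P.eval z / Q.eval z)

/-- `c` is a critical point of `f`. -/
def IsCritical (f : OnePoint ℂ → OnePoint ℂ) (c : OnePoint ℂ) : Prop :=
  ¬ ∃ U ∈ nhds c, Set.InjOn f U

/-- `c` is attracted by an attracting cycle of `f` (words of the frozen statement `S05373`). -/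
def IsAttracted (f : OnePoint ℂ → OnePoint ℂ) (c : OnePoint ℂ) : Prop :=
  ∃ z : OnePoint ℂ, ∃ n : ℕ, 0 < n ∧ f^[n] z = z ∧
    (∃ U ∈ nhds z, ∀ w ∈ U,
      Filter.Tendsto (fun k : ℕ => f^[n * k] w) Filter.atTop (nhds z)) ∧
    Filter.Tendsto (fun k : ℕ => f^[n * k] c) Filter.atTop (nhds z)

/-- The number of the critical points which are attracted by attracting cycles. -/
noncomputable def attractedNumber (f : OnePoint ℂ → OnePoint ℂ) : ℕ :=
  {c : OnePoint ℂ | IsCritical f c ∧ IsAttracted f c}.ncard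

/-- The chordal distance of the Riemann sphere. -/
noncomputable def chordal : OnePoint ℂ → OnePoint ℂ → ℝ
  | OnePoint.some z, OnePoint.some w => ‖z - w‖ / (√(1 + ‖z‖ ^ 2) * √(1 + ‖w‖ ^ 2))
  | OnePoint.some z, OnePoint.infty => 1 / √(1 + ‖z‖ ^ 2)
  | OnePoint.infty, OnePoint.some w => 1 / √(1 + ‖w‖ ^ 2)
  | OnePoint.infty, OnePoint.infty => 0

/-- The Julia set of `f`: the points without a neighbourhood at whose points the iterates of `f` are
equicontinuous for the chordal distance. -/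
def julia (f : OnePoint ℂ → OnePoint ℂ) : Set (OnePoint ℂ) :=
  (interior {x | ∀ ε : ℝ, 0 < ε → ∀ᶠ y in nhds x, ∀ n : ℕ, chordal (f^[n] x) (f^[n] y) < ε})ᶜ

/-- The limit set of the orbit of `x`. -/
def limitSet (f : OnePoint ℂ → OnePoint ℂ) (x : OnePoint ℂ) : Set (OnePoint ℂ) :=
  {y | MapClusterPt y atTop fun n : ℕ => f^[n] x}

/-- Every critical point of the Julia set is in the limit set of a recurrent critical point of the Julia set. -/
def RecurrentlyCovered (f : OnePoint ℂ → OnePoint ℂ) : Prop :=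
  ∀ c, IsCritical f c → c ∈ julia f →
    ∃ r, IsCritical f r ∧ r ∈ julia f ∧ r ∈ limitSet f r ∧ c ∈ limitSet f r

/-- The polynomial of degree at most `d` with coefficients `v`. -/
noncomputable def poly {d : ℕ} (v : Fin (d + 1) → ℂ) : Polynomial ℂ := ∑ i, C (v i) * X ^ (i : ℕ)

/-- Pairs of polynomials `P`, `Q` with `deg P ≤ d`, `deg Q ≤ d - m`, given by their coefficients. -/
abbrev Pairs (d m : ℕ) : Type := (Fin (d + 1) → ℂ) × (Fin (d - m + 1) → ℂ)

/-- `f = P/Q` is the rational map of degree exactly `d` given by the pair `v = (P, Q)` of coprime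
polynomials, `deg Q ≤ d - m`. For `m = 0` these are all rational maps of degree `d`, for `m ≥ 1` those
which fix infinity with local degree at least `m`, for `m = d` the polynomials (up to the constant `Q`). -/
def IsRational {d m : ℕ} (v : Pairs d m) (f : OnePoint ℂ → OnePoint ℂ) : Prop :=
  IsCoprime (poly v.1) (poly v.2) ∧ max (poly v.1).natDegree (poly v.2).natDegree = d ∧
    IsMap f (poly v.1) (poly v.2)

theorem chord_eq (x y : OnePoint ℂ) : chordal x y = Pool.Agent.H35.EX.chord x y := by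
  induction x using OnePoint.rec with
  | infty =>
    induction y using OnePoint.rec with
    | infty => rfl
    | coe y => rfl
  | coe x =>
    induction y using OnePoint.rec with
    | infty => rfl
    | coe y => rfl

theorem julia_eq (f : OnePoint ℂ → OnePoint ℂ) : julia f = Pool.Agent.H44.RC.JS f := by
  unfold julia Pool.Agent.H44.RC.JS Pool.Agent.H56.HR.FS Pool.Agent.H56.HR.EqAt
  simp only [chord_eq]

theorem limit_eq (f : OnePoint ℂ → OnePoint ℂ) (x : OnePoint ℂ) :
    limitSet f x = Pool.Agent.H44.RC.Om f x := by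
  ext y
  exact mapClusterPt_iff_frequently

theorem att_iff {f : OnePoint ℂ → OnePoint ℂ} {c : OnePoint ℂ} :
    Pool.Agent.H32.BT.Att f c ↔ IsAttracted f c := by
  constructor
  · rintro ⟨z, n, ⟨h1, h2, h3⟩, h4⟩
    exact ⟨z, n, h1, h2, h3, h4⟩
  · rintro ⟨z, n, h1, h2, h3, h4⟩
    exact ⟨z, n, ⟨h1, h2, h3⟩, h4⟩

theorem number_eq {d : ℕ} (v : Pool.Agent.H79.Eul.E d) :
    attractedNumber (Pool.Agent.H79.Par.Rf v) = Pool.Agent.H79.ES.NA v := by
  unfold attractedNumber Pool.Agent.H79.ES.NA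
  congr 1
  ext c
  exact and_congr Iff.rfl att_iff.symm

theorem map_eq {d m : ℕ} (hd : 2 ≤ d) {v : Pairs d m} {f : OnePoint ℂ → OnePoint ℂ} (h : IsRational v f) :
    f = Pool.Agent.H44.Fatou.rat (Pool.Agent.H79.Eul.pol v.1) (Pool.Agent.H79.Eul.pol v.2) := by
  obtain ⟨h1, h2, h3⟩ := h
  have h1' : IsCoprime (Pool.Agent.H79.Eul.pol v.1) (Pool.Agent.H79.Eul.pol v.2) := h1
  have h2' : max (Pool.Agent.H79.Eul.pol v.1).natDegree (Pool.Agent.H79.Eul.pol v.2).natDegree = d := h2
  have hB0 : Pool.Agent.H79.Eul.pol v.2 ≠ 0 := Pool.Agent.H32.BT.den_ne_zero h1' (by omega)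
  exact Pool.Agent.H32.RB.ext_eq h1' hB0 h3

theorem rat_is {d m : ℕ} {v : Pairs d m} (h1 : IsCoprime (poly v.1) (poly v.2))
    (h2 : max (poly v.1).natDegree (poly v.2).natDegree = d) : IsRational v
      (Pool.Agent.H44.Fatou.rat (Pool.Agent.H79.Eul.pol v.1) (Pool.Agent.H79.Eul.pol v.2)) := by
  have h1' : IsCoprime (Pool.Agent.H79.Eul.pol v.1) (Pool.Agent.H79.Eul.pol v.2) := h1
  refine ⟨h1, h2, Pool.Agent.H44.Fatou.rat_continuous h1', fun z hz => ?_⟩
  exact Pool.Agent.H44.Fatou.rat_coe_of_ne hz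

theorem rf_ex {d m : ℕ} (v : Pairs d m) : Pool.Agent.H79.Par.Rf (Pool.Agent.H47.NM.ex d m v) =
    Pool.Agent.H44.Fatou.rat (Pool.Agent.H79.Eul.pol v.1) (Pool.Agent.H79.Eul.pol v.2) := by
  unfold Pool.Agent.H79.Par.Rf
  rw [(Pool.Agent.H47.NM.ex_pol v).1, (Pool.Agent.H47.NM.ex_pol v).2]

theorem cov_of {f : OnePoint ℂ → OnePoint ℂ} (h : Pool.Agent.H44.CP.ConcP f) :
    RecurrentlyCovered f ∧ ((∀ c, IsCritical f c → IsAttracted f c) ∨ ∃ c, IsCritical f c ∧ c ∈ julia f) := by
  refine ⟨fun c hc hJ => ?_, ?_⟩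
  · rw [julia_eq] at hJ
    obtain ⟨r, e1, e2, e3, e4⟩ := h.1 c hc hJ
    refine ⟨r, e1, ?_, ?_, ?_⟩
    · rw [julia_eq]; exact e2
    · rw [limit_eq]; exact e3
    · rw [limit_eq]; exact e4
  · rcases h.2 with e1 | ⟨r, e1, e2, e3⟩
    · exact Or.inl fun c hc => att_iff.1 (e1 c hc)
    · refine Or.inr ⟨r, e1, ?_⟩
      rw [julia_eq]; exact e2

/-- The dichotomy for one map. -/
theorem dich {d m : ℕ} (hd : 2 ≤ d) (hm : m ≤ d) (hm1 : m ≠ 1) {v : Pairs d m} {f : OnePoint ℂ → OnePoint ℂ}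
    (hf : IsRational v f) :
    (RecurrentlyCovered f ∧ ((∀ c, IsCritical f c → IsAttracted f c) ∨ ∃ c, IsCritical f c ∧ c ∈ julia f) ∧
        (m = 0 → ∀ z, z ∉ julia f → IsAttracted f z)) ∨
      ∀ ε : ℝ, 0 < ε → ∃ w ∈ Metric.ball v ε, ∃ g, IsRational w g ∧ attractedNumber f < attractedNumber g := by
  have h1 := hf.1
  have h2 := hf.2.1
  rcases Nat.eq_zero_or_pos m with h0 | h0
  · subst h0
    have hfe := map_eq hd hf
    subst hfe
    by_cases hup : Pool.Agent.H44.ND.Up (d := d) v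
    · right
      intro ε hε
      obtain ⟨w, hw, h3, h4, h5⟩ := hup ε hε
      refine ⟨w, hw, _, rat_is h3 h4, ?_⟩
      have e1 := number_eq (d := d) v
      have e2 := number_eq (d := d) w
      unfold Pool.Agent.H79.Par.Rf at e1 e2
      rw [← e1, ← e2] at h5
      exact h5
    · left
      have h3 := cov_of ((Pool.Agent.H64.PC.conc_or (v := v) hd h1 h2).resolve_right hup)
      refine ⟨h3.1, h3.2, fun _ z hz => ?_⟩
      rw [julia_eq] at hz
      exact att_iff.1 (Pool.Agent.H64.MJ.fs_att (v := v) hd h1 h2 hup (not_not.1 hz))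
  · have h2m : 2 ≤ m := by omega
    have hfe := (map_eq hd hf).trans (rf_ex v).symm
    subst hfe
    rcases Pool.Agent.H57.CF.concF_all hd h2m hm h1 h2 with h3 | hup
    · left
      have h4 := cov_of h3
      exact ⟨h4.1, h4.2, fun h => absurd h (by omega)⟩
    · right
      intro ε hε
      obtain ⟨w, hw, h3, h4, h5⟩ := hup ε hε
      refine ⟨w, hw, _, rat_is h3 h4, ?_⟩
      rw [← rf_ex w, number_eq, number_eq]
      exact h5

/-- The exceptional maps are unstable. -/
theorem exc_nwd {d m : ℕ} (hd : 2 ≤ d) (hm : m ≤ d) (hm1 : m ≠ 1) :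
    IsNowhereDense {v : Pairs d m | ∃ f : OnePoint ℂ → OnePoint ℂ, IsRational v f ∧
      ¬ (RecurrentlyCovered f ∧ ((∀ c, IsCritical f c → IsAttracted f c) ∨ ∃ c, IsCritical f c ∧ c ∈ julia f) ∧
        (m = 0 → ∀ z, z ∉ julia f → IsAttracted f z))} := by
  rcases Nat.eq_zero_or_pos m with h0 | h0
  · subst h0
    refine (Pool.Agent.H44.ND.up_nwd hd).mono ?_
    rintro v ⟨f, hf, hn⟩
    refine ⟨hf.1, hf.2.1, fun ε hε => ?_⟩
    have hfe := map_eq hd hf
    subst hfe
    obtain ⟨w, hw, g, hg, hlt⟩ := (dich hd hm hm1 hf).resolve_left hn ε hε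
    have hge := map_eq hd hg
    subst hge
    refine ⟨w, hw, hg.1, hg.2.1, ?_⟩
    have e1 := number_eq (d := d) v
    have e2 := number_eq (d := d) w
    unfold Pool.Agent.H79.Par.Rf at e1 e2
    rw [e1, e2] at hlt
    exact hlt
  · refine (Pool.Agent.H57.CF.upF_nwd hd).mono ?_
    rintro v ⟨f, hf, hn⟩
    refine ⟨hf.1, hf.2.1, fun ε hε => ?_⟩
    have hfe := (map_eq hd hf).trans (rf_ex v).symm
    subst hfe
    obtain ⟨w, hw, g, hg, hlt⟩ := (dich hd hm hm1 hf).resolve_left hn ε hε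
    have hge := (map_eq hd hg).trans (rf_ex w).symm
    subst hge
    refine ⟨w, hw, hg.1, hg.2.1, ?_⟩
    rw [number_eq, number_eq] at hlt
    exact hlt

/-- Let `2 ≤ d`, `m ≤ d`, `m ≠ 1`, and consider the rational maps `f = P/Q` of degree `d` with
`deg Q ≤ d - m` (`m = 0`: all rational maps of degree `d`; `m = d`: all polynomials of degree `d`).
(1) For EVERY such `f`: either every critical point of the Julia set is in the limit set of a recurrent critical point
of the Julia set (and `f` is hyperbolic or has such a critical point, and for `m = 0` the Fatou set is the union of the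
basins of the attracting cycles), or there are maps of the family arbitrarily near `f` with more critical points which
are attracted by attracting cycles. (2) The maps without the first property are nowhere dense in the family. -/
theorem result (d m : ℕ) (hd : 2 ≤ d) (hm : m ≤ d) (hm1 : m ≠ 1) :
    (∀ (v : Pairs d m) (f : OnePoint ℂ → OnePoint ℂ), IsRational v f →
      (RecurrentlyCovered f ∧ ((∀ c, IsCritical f c → IsAttracted f c) ∨ ∃ c, IsCritical f c ∧ c ∈ julia f) ∧
          (m = 0 → ∀ z, z ∉ julia f → IsAttracted f z)) ∨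
        ∀ ε : ℝ, 0 < ε → ∃ w ∈ Metric.ball v ε, ∃ g, IsRational w g ∧ attractedNumber f < attractedNumber g) ∧
    IsNowhereDense {v : Pairs d m | ∃ f : OnePoint ℂ → OnePoint ℂ, IsRational v f ∧
      ¬ (RecurrentlyCovered f ∧ ((∀ c, IsCritical f c → IsAttracted f c) ∨ ∃ c, IsCritical f c ∧ c ∈ julia f) ∧
          (m = 0 → ∀ z, z ∉ julia f → IsAttracted f z))} :=
  ⟨fun _ _ hf => dich hd hm hm1 hf, exc_nwd hd hm hm1⟩

end Pool.Agent.H64.PF
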