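import Pool.Agent.H64.PC.Fin
import Pool.Agent.H64.MJ.FSA
import Pool.Agent.H64.JS.CNK
import Pool.Agent.H42.PR.Main
import Pool.Agent.H42.PR.Cmp
import Pool.Agent.H44.NR.Dis

/-!
# Module PPH: the component of a Julia critical point of a locally maximal map

`pph`: the component of the critical point `c` in the closure `K` of the orbits of the Julia critical points meets the closure of the
forward orbit of `f c`. PROOF. `c ∈ K` by `conc_or`. Otherwise `split_of_comp` (H42/PR/Cmp) gives a splitting of `K`, and `sph_up`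
(H42/PR/Main, the Julia set is the sphere) or `pp_dis` (H44/NR/Dis) a contradiction; in the second case the orbits of the other critical
points are in compact subsets of the Fatou set (`fs_att`, `orb_cl`).
-/

set_option autoImplicit false

open Filter Topology Polynomial Metric Set

namespace Pool.Agent.H64.PF

open Pool.Agent.H44.Fatou Pool.Agent.H32.BT Pool.Agent.H79.Eul Pool.Agent.H79.Par
open Pool.Agent.H35.EX Pool.Agent.H44.RR Pool.Agent.H56.HR Pool.Agent.H44.RC Pool.Agent.H47.RJ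
open Pool.Agent.H44.ND Pool.Agent.H79.ES Pool.Agent.H44.CP Pool.Agent.H64.JS Pool.Agent.H44.RG

variable {d : ℕ} {v : E d}

/-- the closure of the orbits of the Julia critical points -/
def KV (v : E d) : Set (OnePoint ℂ) := KJ {c | IsCrit (Rf v) c} (JS (Rf v)) (Rf v)

theorem js_inv (hd : 2 ≤ d) (hcop : IsCoprime (pol v.1) (pol v.2))
    (hdeg : max (pol v.1).natDegree (pol v.2).natDegree = d) : ∀ x ∈ JS (Rf v), Rf v x ∈ JS (Rf v) := by
  intro x hx hF
  apply hx
  exact (Pool.Agent.H47.RJ.fs_iff (v := v) (by omega) hcop hdeg 1 x).1 hF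

/-- the post-critical set of a locally maximal map is the union of `KV` and a closed subset of the Fatou set -/
theorem pc_split (hd : 2 ≤ d) (hcop : IsCoprime (pol v.1) (pol v.2))
    (hdeg : max (pol v.1).natDegree (pol v.2).natDegree = d) (hup : ¬ Up v) :
    ∃ G : Set (OnePoint ℂ), IsClosed G ∧ G ⊆ FS (Rf v) ∧ KV v ∪ G = PC (Rf v) := by
  obtain ⟨C, hC⟩ : ∃ C : Set (OnePoint ℂ), C = {c | IsCrit (Rf v) c ∧ c ∈ FS (Rf v)} := ⟨_, rfl⟩
  have hCf : C.Finite := by
    have h : {z : OnePoint ℂ | IsCrit (Rf v) z}.Finite := crit_finite hcop (by rw [hdeg]; omega)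
    rw [hC]
    exact h.subset fun z hz => hz.1
  obtain ⟨A, hA⟩ : ∃ A : OnePoint ℂ → Set (OnePoint ℂ), A = fun c => {y | ∃ n : ℕ, 1 ≤ n ∧ (Rf v)^[n] c = y} :=
    ⟨_, rfl⟩
  have hsub : ∀ c ∈ C, closure (A c) ⊆ FS (Rf v) := by
    intro c hc
    rw [hC] at hc
    obtain ⟨F, hF1, hF2, hF3⟩ := Pool.Agent.H44.NR.orb_cl hd hcop hdeg
      (Pool.Agent.H64.MJ.fs_att hd hcop hdeg hup hc.2)
    have h1 : closure (A c) ⊆ F := by
      refine closure_minimal ?_ hF1
      rw [hA]
      rintro y ⟨n, -, rfl⟩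
      exact hF3 n
    exact fun y hy => Pool.Agent.H44.NR.att_in hd hcop hdeg hup (hF2 y (h1 hy))
  refine ⟨⋃ c ∈ C, closure (A c), hCf.isClosed_biUnion fun c _ => isClosed_closure, ?_, ?_⟩
  · intro y hy
    simp only [mem_iUnion] at hy
    obtain ⟨c, hc, hy⟩ := hy
    exact hsub c hc hy
  · rw [← hCf.closure_biUnion]
    unfold KV KJ PC
    rw [← closure_union]
    congr 1
    ext y
    simp only [mem_union, mem_setOf_eq, mem_iUnion, hA, hC, exists_prop]
    constructor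
    · rintro (⟨c, h1, -, n, hn, h2⟩ | ⟨c, ⟨h1, -⟩, n, hn, h2⟩)
      · exact ⟨c, h1, n, hn, h2⟩
      · exact ⟨c, h1, n, hn, h2⟩
    · rintro ⟨c, h1, n, hn, h2⟩
      by_cases hcF : c ∈ FS (Rf v)
      · exact Or.inr ⟨c, ⟨h1, hcF⟩, n, hn, h2⟩
      · exact Or.inl ⟨c, h1, hcF, n, hn, h2⟩

/-- limit sets of Julia critical points are in `KV` -/
theorem om_kv {r c : OnePoint ℂ} (hr : IsCrit (Rf v) r) (hrJ : r ∈ JS (Rf v)) (hc : c ∈ Om (Rf v) r) : c ∈ KV v := by
  unfold KV KJ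
  rw [mem_closure_iff_nhds]
  intro U hU
  obtain ⟨n, hn1, hn⟩ := ((hc U hU).and_eventually (eventually_ge_atTop 1)).exists
  exact ⟨(Rf v)^[n] r, hn1, r, hr, hrJ, n, hn, rfl⟩

theorem pph (hd : 2 ≤ d) (hcop : IsCoprime (pol v.1) (pol v.2))
    (hdeg : max (pol v.1).natDegree (pol v.2).natDegree = d) (hup : ¬ Up v) {c : OnePoint ℂ}
    (hc : IsCrit (Rf v) c) (hcJ : c ∈ JS (Rf v)) : (connectedComponentIn (KV v) c ∩ OC (Rf v) c).Nonempty := by
  by_contra hne
  have hconc := (Pool.Agent.H64.PC.conc_or (v := v) hd hcop hdeg).resolve_right hup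
  have hK : IsClosed (KV v) := isClosed_closure
  have hKJ : KV v ⊆ JS (Rf v) := kj_sub (js_closed _) (js_inv hd hcop hdeg)
  have hcK : ∀ c', IsCrit (Rf v) c' → c' ∈ JS (Rf v) → c' ∈ KV v := by
    intro c' h1 h2
    obtain ⟨r, e1, e2, -, e4⟩ := hconc.1 c' h1 h2
    exact om_kv e1 e2 e4
  obtain ⟨P1, P2, h1, h2, h12, hun, hc1, hO⟩ := Pool.Agent.H42.PR.split_of_comp hK.isCompact
    (isClosed_closure (s := {y | ∃ n : ℕ, 1 ≤ n ∧ (Rf v)^[n] c = y})) (hcK c hc hcJ)
    (by
      rw [Set.disjoint_iff_inter_eq_empty]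
      exact not_nonempty_iff_eq_empty.1 hne)
  have hP2 : ∀ n : ℕ, 1 ≤ n → (Rf v)^[n] c ∈ P2 := by
    intro n hn
    exact hO ⟨subset_closure ⟨c, hc, hcJ, n, hn, rfl⟩, subset_closure ⟨n, hn, rfl⟩⟩
  obtain ⟨G, hG, hGF, hGP⟩ := pc_split hd hcop hdeg hup
  by_cases hF : (FS (Rf v)).Nonempty
  · refine Pool.Agent.H44.NR.pp_dis hd hcop hdeg hup hF hc hcJ h1 (h2.union hG) ?_ ?_ hc1 fun n hn => Or.inl (hP2 n hn)
    · rw [← union_assoc, hun, hGP]
      have h3 : c ∈ PC (Rf v) := by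
        rw [← hGP]
        exact Or.inl (hcK c hc hcJ)
      rw [union_eq_self_of_subset_right (singleton_subset_iff.2 h3)]
    · rw [disjoint_union_right]
      refine ⟨h12, ?_⟩
      rw [Set.disjoint_left]
      intro x hx hxG
      have h3 : x ∈ KV v := by
        rw [← hun]
        exact Or.inl hx
      exact hKJ h3 (hGF hxG)
  · have hJ : JS (Rf v) = univ := by
      rw [not_nonempty_iff_eq_empty] at hF
      show (FS (Rf v))ᶜ = univ
      rw [hF, compl_empty]
    have hG0 : G = ∅ := by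
      rw [not_nonempty_iff_eq_empty] at hF
      rw [hF] at hGF
      exact subset_empty_iff.1 hGF
    rw [hG0, union_empty] at hGP
    exact hup (Pool.Agent.H42.PR.sph_up hd hcop hdeg hc hJ h1 h2 h12 (hun.trans hGP) hc1 hP2)

end Pool.Agent.H64.PF
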