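import Mathlib
import Pool.Agent.H64.PC.Fin
import Pool.Agent.H64.MJ.FSA
import Pool.Agent.H64.MF.FSF
import Pool.Agent.H64.JS.CNK
import Pool.Agent.H64.JS.COM
import Pool.Agent.H64.PF.PPH
import Pool.Agent.H57.CF.ALF
import Pool.Agent.H32.RB.Main

/-!
# Limit sets of recurrent critical points

The work is in `H57/CP`, `H44/CP`, `H31/CP` (velocities of repelling cycles, sums over backward orbits),
`H1/PU`, `H50/ST`, `H64/PC`, `H47/PS` (maps whose Julia set is the sphere), `H57/CF` (families, polynomials),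
`H79/ES`, `H44/ND`, `H44/RC`, `H47/RJ`, `H76/SU`; the Fatou set: `H64/MJ`, `H64/MF`, `H56/RD`, `H56/HF`; conjugacies
on the Julia sets: `H64/JS`.
-/

set_option autoImplicit false

namespace Pool.Agent.H64.PF.Y

open Polynomial Filter Topology MeasureTheory

/-- `f` is the rational map `P/Q` on the sphere. -/
def IsMap (f : OnePoint ℂ → OnePoint ℂ) (P Q : Polynomial ℂ) : Prop :=
  Continuous f ∧
    ∀ z : ℂ, Q.eval z ≠ 0 → f (OnePoint.some z) = OnePoint.some (P.eval z / Q.eval z)

/-- `c` is a critical point of `f`. -/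
def IsCritical (f : OnePoint ℂ → OnePoint ℂ) (c : OnePoint ℂ) : Prop :=
  ¬ ∃ U ∈ nhds c, Set.InjOn f U

/-- `c` is attracted by an attracting cycle of `f` (words of the frozen statement `S05373`). -/
def IsAttracted (f : OnePoint ℂ → OnePoint ℂ) (c : OnePoint ℂ) : Prop :=
  ∃ z : OnePoint ℂ, ∃ n : ℕ, 0 < n ∧ f^[n] z = z ∧
    (∃ U ∈ nhds z, ∀ w ∈ U,
      Filter.Tendsto (fun k : ℕ => f^[n * k] w) Filter.atTop (nhds z)) ∧
    Filter.Tendsto (fun k : ℕ => f^[n * k] c) Filter.atTop (nhds z)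

/-- The number of the critical points which are attracted by attracting cycles. -/
noncomputable def attractedNumber (f : OnePoint ℂ → OnePoint ℂ) : ℕ :=
  {c : OnePoint ℂ | IsCritical f c ∧ IsAttracted f c}.ncard

/-- The chordal distance of the Riemann sphere. -/
noncomputable def chordal : OnePoint ℂ → OnePoint ℂ → ℝ
  | OnePoint.some z, OnePoint.some w => ‖z - w‖ / (√(1 + ‖z‖ ^ 2) * √(1 + ‖w‖ ^ 2))
  | OnePoint.some z, OnePoint.infty => 1 / √(1 + ‖z‖ ^ 2)
  | OnePoint.infty, OnePoint.some w => 1 / √(1 + ‖w‖ ^ 2)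
  | OnePoint.infty, OnePoint.infty => 0

/-- The Julia set of `f`: the points without a neighbourhood at whose points the iterates of `f` are
equicontinuous for the chordal distance. -/
def julia (f : OnePoint ℂ → OnePoint ℂ) : Set (OnePoint ℂ) :=
  (interior {x | ∀ ε : ℝ, 0 < ε → ∀ᶠ y in nhds x, ∀ n : ℕ, chordal (f^[n] x) (f^[n] y) < ε})ᶜ

/-- The limit set of the orbit of `x`. -/
def limitSet (f : OnePoint ℂ → OnePoint ℂ) (x : OnePoint ℂ) : Set (OnePoint ℂ) :=
  {y | MapClusterPt y atTop fun n : ℕ => f^[n] x}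

/-- Every critical point of the Julia set is in the limit set of a recurrent critical point of the Julia set. -/
def RecurrentlyCovered (f : OnePoint ℂ → OnePoint ℂ) : Prop :=
  ∀ c, IsCritical f c → c ∈ julia f →
    ∃ r, IsCritical f r ∧ r ∈ julia f ∧ r ∈ limitSet f r ∧ c ∈ limitSet f r

/-- The closure of the set of all `f^n(c)`, `n ≥ 1`, `c` a critical point in the Julia set. -/
def postcritical (f : OnePoint ℂ → OnePoint ℂ) : Set (OnePoint ℂ) :=
  closure {y | ∃ c, IsCritical f c ∧ c ∈ julia f ∧ ∃ n : ℕ, 1 ≤ n ∧ f^[n] c = y}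

/-- For every critical point `c` of the Julia set the connected component of `c` in `postcritical f` meets the
limit set of `c`. -/
def ComponentsReturn (f : OnePoint ℂ → OnePoint ℂ) : Prop :=
  ∀ c, IsCritical f c → c ∈ julia f → (connectedComponentIn (postcritical f) c ∩ limitSet f c).Nonempty

/-- If `postcritical f` is totally disconnected then every critical point of the Julia set is recurrent. -/
def RecurrentIfDisconnected (f : OnePoint ℂ → OnePoint ℂ) : Prop :=
  IsTotallyDisconnected (postcritical f) → ∀ c, IsCritical f c → c ∈ julia f → c ∈ limitSet f c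

/-- Every critical point `c` of the Julia set is in the limit set of a recurrent critical point of the Julia set; for
`m = 0` its component in `postcritical f` meets its limit set, in particular `c` is recurrent if `postcritical f` is
totally disconnected. -/
def Linked (m : ℕ) (f : OnePoint ℂ → OnePoint ℂ) : Prop :=
  RecurrentlyCovered f ∧ (m = 0 → ComponentsReturn f ∧ RecurrentIfDisconnected f)

/-- `f` and `g` are topologically conjugate on their Julia sets. -/
def JuliaConjugate (f g : OnePoint ℂ → OnePoint ℂ) : Prop :=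
  ∃ h : julia f ≃ₜ julia g, ∀ x y : julia f, f x = y → g (h x) = h y

/-- The polynomial of degree at most `d` with coefficients `v`. -/
noncomputable def poly {d : ℕ} (v : Fin (d + 1) → ℂ) : Polynomial ℂ := ∑ i, C (v i) * X ^ (i : ℕ)

/-- Pairs of polynomials `P`, `Q` with `deg P ≤ d`, `deg Q ≤ d - m`, given by their coefficients. -/
abbrev Pairs (d m : ℕ) : Type := (Fin (d + 1) → ℂ) × (Fin (d - m + 1) → ℂ)

/-- `f = P/Q` is the rational map of degree exactly `d` given by the pair `v = (P, Q)` of coprime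
polynomials, `deg Q ≤ d - m`. For `m = 0` these are all rational maps of degree `d`, for `m ≥ 1` those
which fix infinity with local degree at least `m`, for `m = d` the polynomials (up to the constant `Q`). -/
def IsRational {d m : ℕ} (v : Pairs d m) (f : OnePoint ℂ → OnePoint ℂ) : Prop :=
  IsCoprime (poly v.1) (poly v.2) ∧ max (poly v.1).natDegree (poly v.2).natDegree = d ∧
    IsMap f (poly v.1) (poly v.2)

theorem chord_eq (x y : OnePoint ℂ) : chordal x y = Pool.Agent.H35.EX.chord x y := by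
  induction x using OnePoint.rec with
  | infty =>
    induction y using OnePoint.rec with
    | infty => rfl
    | coe y => rfl
  | coe x =>
    induction y using OnePoint.rec with
    | infty => rfl
    | coe y => rfl

theorem julia_eq (f : OnePoint ℂ → OnePoint ℂ) : julia f = Pool.Agent.H44.RC.JS f := by
  unfold julia Pool.Agent.H44.RC.JS Pool.Agent.H56.HR.FS Pool.Agent.H56.HR.EqAt
  simp only [chord_eq]

theorem limit_eq (f : OnePoint ℂ → OnePoint ℂ) (x : OnePoint ℂ) :
    limitSet f x = Pool.Agent.H44.RC.Om f x := by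
  ext y
  exact mapClusterPt_iff_frequently

theorem att_iff {f : OnePoint ℂ → OnePoint ℂ} {c : OnePoint ℂ} :
    Pool.Agent.H32.BT.Att f c ↔ IsAttracted f c := by
  constructor
  · rintro ⟨z, n, ⟨h1, h2, h3⟩, h4⟩
    exact ⟨z, n, h1, h2, h3, h4⟩
  · rintro ⟨z, n, h1, h2, h3, h4⟩
    exact ⟨z, n, ⟨h1, h2, h3⟩, h4⟩

theorem number_eq {d : ℕ} (v : Pool.Agent.H79.Eul.E d) :
    attractedNumber (Pool.Agent.H79.Par.Rf v) = Pool.Agent.H79.ES.NA v := by
  unfold attractedNumber Pool.Agent.H79.ES.NA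
  congr 1
  ext c
  exact and_congr Iff.rfl att_iff.symm

theorem map_eq {d m : ℕ} (hd : 2 ≤ d) {v : Pairs d m} {f : OnePoint ℂ → OnePoint ℂ} (h : IsRational v f) :
    f = Pool.Agent.H44.Fatou.rat (Pool.Agent.H79.Eul.pol v.1) (Pool.Agent.H79.Eul.pol v.2) := by
  obtain ⟨h1, h2, h3⟩ := h
  have h1' : IsCoprime (Pool.Agent.H79.Eul.pol v.1) (Pool.Agent.H79.Eul.pol v.2) := h1
  have h2' : max (Pool.Agent.H79.Eul.pol v.1).natDegree (Pool.Agent.H79.Eul.pol v.2).natDegree = d := h2
  have hB0 : Pool.Agent.H79.Eul.pol v.2 ≠ 0 := Pool.Agent.H32.BT.den_ne_zero h1' (by omega)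
  exact Pool.Agent.H32.RB.ext_eq h1' hB0 h3

theorem rat_is {d m : ℕ} {v : Pairs d m} (h1 : IsCoprime (poly v.1) (poly v.2))
    (h2 : max (poly v.1).natDegree (poly v.2).natDegree = d) : IsRational v
      (Pool.Agent.H44.Fatou.rat (Pool.Agent.H79.Eul.pol v.1) (Pool.Agent.H79.Eul.pol v.2)) := by
  have h1' : IsCoprime (Pool.Agent.H79.Eul.pol v.1) (Pool.Agent.H79.Eul.pol v.2) := h1
  refine ⟨h1, h2, Pool.Agent.H44.Fatou.rat_continuous h1', fun z hz => ?_⟩
  exact Pool.Agent.H44.Fatou.rat_coe_of_ne hz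

theorem rf_ex {d m : ℕ} (v : Pairs d m) : Pool.Agent.H79.Par.Rf (Pool.Agent.H47.NM.ex d m v) =
    Pool.Agent.H44.Fatou.rat (Pool.Agent.H79.Eul.pol v.1) (Pool.Agent.H79.Eul.pol v.2) := by
  unfold Pool.Agent.H79.Par.Rf
  rw [(Pool.Agent.H47.NM.ex_pol v).1, (Pool.Agent.H47.NM.ex_pol v).2]

theorem cov_of {f : OnePoint ℂ → OnePoint ℂ} (h : Pool.Agent.H44.CP.ConcP f) : RecurrentlyCovered f := by
  intro c hc hJ
  rw [julia_eq] at hJ
  obtain ⟨r, e1, e2, e3, e4⟩ := h.1 c hc hJ
  refine ⟨r, e1, ?_, ?_, ?_⟩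
  · rw [julia_eq]; exact e2
  · rw [limit_eq]; exact e3
  · rw [limit_eq]; exact e4

/-- The component of `c` meets the closure of the forward orbit of `f(c)`. -/
def Meets (f : OnePoint ℂ → OnePoint ℂ) : Prop := ∀ c, IsCritical f c → c ∈ julia f →
  (connectedComponentIn (postcritical f) c ∩ Pool.Agent.H64.JS.OC f c).Nonempty

theorem linked_of {m : ℕ} {f : OnePoint ℂ → OnePoint ℂ} (hf : Continuous f) (h1 : RecurrentlyCovered f)
    (h2 : m = 0 → Meets f) : Linked m f := by
  refine ⟨h1, fun h0 => ?_⟩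
  have h3 : ComponentsReturn f := fun c hc hJ =>
    Pool.Agent.H64.JS.cmp_om hf isClosed_closure (Pool.Agent.H64.JS.kj_inv hf) (h2 h0 c hc hJ)
  exact ⟨h3, fun hd c hc hJ => Pool.Agent.H64.JS.td_om hd (h3 c hc hJ)⟩

theorem om_oc {f : OnePoint ℂ → OnePoint ℂ} {c y : OnePoint ℂ} (h : y ∈ limitSet f c) :
    y ∈ Pool.Agent.H64.JS.OC f c := by
  unfold Pool.Agent.H64.JS.OC
  rw [mem_closure_iff_nhds]
  intro U hU
  obtain ⟨n, hn1, hn⟩ := ((h.frequently hU).and_eventually (eventually_ge_atTop 1)).exists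
  exact ⟨f^[n] c, hn1, n, hn, rfl⟩

def FatF : Prop := ∀ d k : ℕ, 2 ≤ d → 2 ≤ k → k ≤ d → volume {x : Pool.Agent.H47.NM.Em d k |
      IsCoprime (Pool.Agent.H79.Eul.pol x.1) (Pool.Agent.H79.Eul.pol x.2) ∧
      max (Pool.Agent.H79.Eul.pol x.1).natDegree (Pool.Agent.H79.Eul.pol x.2).natDegree = d ∧
      Pool.Agent.H56.HR.FS (Pool.Agent.H79.Par.Rf (Pool.Agent.H47.NM.ex d k x)) ≠
        {z | Pool.Agent.H32.BT.Att (Pool.Agent.H79.Par.Rf (Pool.Agent.H47.NM.ex d k x)) z}} = 0

/-- The dichotomy for one map. -/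
theorem dich (hfat : FatF) {d m : ℕ} (hd : 2 ≤ d) (hm : m ≤ d) (hm1 : m ≠ 1) {v : Pairs d m}
    {f : OnePoint ℂ → OnePoint ℂ} (hf : IsRational v f) :
    (Linked m f ∧ ∀ z, z ∉ julia f → IsAttracted f z) ∨
      ∀ ε : ℝ, 0 < ε → ∃ w ∈ Metric.ball v ε, ∃ g, IsRational w g ∧ attractedNumber f < attractedNumber g := by
  have h1 := hf.1
  have h2 := hf.2.1
  rcases Nat.eq_zero_or_pos m with h0 | h0
  · subst h0
    have hfe := map_eq hd hf
    subst hfe
    by_cases hup : Pool.Agent.H44.ND.Up (d := d) v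
    · right
      intro ε hε
      obtain ⟨w, hw, h3, h4, h5⟩ := hup ε hε
      refine ⟨w, hw, _, rat_is h3 h4, ?_⟩
      have e1 := number_eq (d := d) v
      have e2 := number_eq (d := d) w
      unfold Pool.Agent.H79.Par.Rf at e1 e2
      rw [← e1, ← e2] at h5
      exact h5
    · left
      refine ⟨linked_of hf.2.2.1 (cov_of ((Pool.Agent.H64.PC.conc_or (v := v) hd h1 h2).resolve_right hup))
        fun _ c hc hJ => ?_, fun z hz => ?_⟩
      · rw [julia_eq] at hJ
        have h3 := Pool.Agent.H64.PF.pph (v := v) hd h1 h2 hup hc hJ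
        unfold postcritical
        rw [julia_eq]
        exact h3
      · rw [julia_eq] at hz
        exact att_iff.1 (Pool.Agent.H64.MJ.fs_att (v := v) hd h1 h2 hup (not_not.1 hz))
  · have h2m : 2 ≤ m := by omega
    have hfe := (map_eq hd hf).trans (rf_ex v).symm
    subst hfe
    by_cases hup : Pool.Agent.H57.CF.UpF d m v
    · right
      intro ε hε
      obtain ⟨w, hw, h3, h4, h5⟩ := hup ε hε
      refine ⟨w, hw, _, rat_is h3 h4, ?_⟩
      rw [← rf_ex w, number_eq, number_eq]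
      exact h5
    · left
      refine ⟨linked_of hf.2.2.1 (cov_of ((Pool.Agent.H57.CF.concF_all hd h2m hm h1 h2).resolve_right hup))
        fun h => absurd h (by omega), fun z hz => ?_⟩
      rw [julia_eq] at hz
      exact att_iff.1 (Pool.Agent.H64.MF.fs_attF hd (fun k h3 h4 => hfat d k hd h3 h4) h2m hm h1 h2 hup
        (not_not.1 hz))

/-- The exceptional maps are nowhere dense. -/
theorem exc_nwd (hfat : FatF) {d m : ℕ} (hd : 2 ≤ d) (hm : m ≤ d) (hm1 : m ≠ 1) :
    IsNowhereDense {v : Pairs d m | ∃ f : OnePoint ℂ → OnePoint ℂ, IsRational v f ∧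
      ¬ (Linked m f ∧ ∀ z, z ∉ julia f → IsAttracted f z)} := by
  rcases Nat.eq_zero_or_pos m with h0 | h0
  · subst h0
    refine (Pool.Agent.H44.ND.up_nwd hd).mono ?_
    rintro v ⟨f, hf, hn⟩
    refine ⟨hf.1, hf.2.1, fun ε hε => ?_⟩
    have hfe := map_eq hd hf
    subst hfe
    obtain ⟨w, hw, g, hg, hlt⟩ := (dich hfat hd hm hm1 hf).resolve_left hn ε hε
    have hge := map_eq hd hg
    subst hge
    refine ⟨w, hw, hg.1, hg.2.1, ?_⟩
    have e1 := number_eq (d := d) v
    have e2 := number_eq (d := d) w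
    unfold Pool.Agent.H79.Par.Rf at e1 e2
    rw [e1, e2] at hlt
    exact hlt
  · refine (Pool.Agent.H57.CF.upF_nwd hd).mono ?_
    rintro v ⟨f, hf, hn⟩
    refine ⟨hf.1, hf.2.1, fun ε hε => ?_⟩
    have hfe := (map_eq hd hf).trans (rf_ex v).symm
    subst hfe
    obtain ⟨w, hw, g, hg, hlt⟩ := (dich hfat hd hm hm1 hf).resolve_left hn ε hε
    have hge := (map_eq hd hg).trans (rf_ex w).symm
    subst hge
    refine ⟨w, hw, hg.1, hg.2.1, ?_⟩
    rw [number_eq, number_eq] at hlt
    exact hlt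

theorem js_facts {d m : ℕ} (hd : 2 ≤ d) {v : Pairs d m} {f : OnePoint ℂ → OnePoint ℂ} (hf : IsRational v f) :
    (∀ c ∈ julia f, c ∈ {c | IsCritical f c} ↔ Pool.Agent.H64.JS.NInj (julia f) f c) ∧
      (∀ x ∈ julia f, f x ∈ julia f) ∧ IsClosed (julia f) := by
  have hfe := (map_eq hd hf).trans (rf_ex v).symm
  have h1 := hf.1
  have h2 := hf.2.1
  subst hfe
  have hcop : IsCoprime (Pool.Agent.H79.Eul.pol (Pool.Agent.H47.NM.ex d m v).1)
      (Pool.Agent.H79.Eul.pol (Pool.Agent.H47.NM.ex d m v).2) := by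
    rw [(Pool.Agent.H47.NM.ex_pol v).1, (Pool.Agent.H47.NM.ex_pol v).2]
    exact h1
  have hdeg : max (Pool.Agent.H79.Eul.pol (Pool.Agent.H47.NM.ex d m v).1).natDegree
      (Pool.Agent.H79.Eul.pol (Pool.Agent.H47.NM.ex d m v).2).natDegree = d := by
    rw [(Pool.Agent.H47.NM.ex_pol v).1, (Pool.Agent.H47.NM.ex_pol v).2]
    exact h2
  rw [julia_eq]
  refine ⟨fun c hc => Pool.Agent.H64.JS.crit_js hd hcop hdeg hc, fun x hx hF => hx ?_,
    Pool.Agent.H47.RJ.js_closed _⟩
  exact (Pool.Agent.H47.RJ.fs_iff (by omega) hcop hdeg 1 x).1 hF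

theorem rat_near {d m : ℕ} (hd : 2 ≤ d) {v : Pairs d m} (h1 : IsCoprime (poly v.1) (poly v.2))
    (h2 : max (poly v.1).natDegree (poly v.2).natDegree = d) : ∀ᶠ w : Pairs d m in nhds v,
      IsCoprime (poly w.1) (poly w.2) ∧ max (poly w.1).natDegree (poly w.2).natDegree = d :=
  Pool.Agent.H57.CF.ex_near hd h1 h2

theorem stable (hfat : FatF) {d m : ℕ} (hd : 2 ≤ d) (hm : m ≤ d) (hm1 : m ≠ 1) {v : Pairs d m}
    {f : OnePoint ℂ → OnePoint ℂ} (hf : IsRational v f) {ε : ℝ} (hε : 0 < ε)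
    (hs : ∀ w ∈ Metric.ball v ε, ∀ g, IsRational w g → JuliaConjugate f g) : Linked m f := by
  obtain ⟨X, hX⟩ : ∃ X : Set (Pairs d m), X = {v : Pairs d m | ∃ f : OnePoint ℂ → OnePoint ℂ, IsRational v f ∧
      ¬ (Linked m f ∧ ∀ z, z ∉ julia f → IsAttracted f z)} := ⟨_, rfl⟩
  have hnd : IsNowhereDense X := by
    rw [hX]
    exact exc_nwd hfat hd hm hm1
  have hN : Metric.ball v ε ∩ {w : Pairs d m | IsCoprime (poly w.1) (poly w.2) ∧
      max (poly w.1).natDegree (poly w.2).natDegree = d} ∈ nhds v :=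
    Filter.inter_mem (Metric.ball_mem_nhds v hε) (rat_near hd hf.1 hf.2.1)
  obtain ⟨w, hw, hwX⟩ : ∃ w ∈ Metric.ball v ε ∩ {w : Pairs d m | IsCoprime (poly w.1) (poly w.2) ∧
      max (poly w.1).natDegree (poly w.2).natDegree = d}, w ∉ X := by
    by_contra hcon
    push Not at hcon
    have h1 : Metric.ball v ε ∩ {w : Pairs d m | IsCoprime (poly w.1) (poly w.2) ∧
      max (poly w.1).natDegree (poly w.2).natDegree = d} ⊆ closure X := fun w hw => subset_closure (hcon w hw)
    have h2 : v ∈ interior (closure X) := mem_interior_iff_mem_nhds.2 (Filter.mem_of_superset hN h1)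
    unfold IsNowhereDense at hnd
    rw [hnd] at h2
    exact h2
  have hg := rat_is hw.2.1 hw.2.2
  obtain ⟨g, hgd⟩ : ∃ g, g = Pool.Agent.H44.Fatou.rat (Pool.Agent.H79.Eul.pol w.1) (Pool.Agent.H79.Eul.pol w.2) :=
    ⟨_, rfl⟩
  rw [← hgd] at hg
  have hcov : Linked m g := by
    by_contra hn
    apply hwX
    rw [hX]
    exact ⟨g, hg, fun h => hn h.1⟩
  obtain ⟨h, hh⟩ := hs w hw.1 g hg
  obtain ⟨e1, e2, -⟩ := js_facts hd hf
  obtain ⟨e3, e4, e5⟩ := js_facts hd hg
  refine linked_of hf.2.2.1 (fun c hc hJ => ?_) fun h0 c hc hJ => ?_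
  · obtain ⟨r, hr, hrJ, h1, h2⟩ := Pool.Agent.H64.JS.con_cov e2 e4 e1 e3 hh (fun c hc hJ => by
      obtain ⟨r, q1, q2, q3, q4⟩ := hcov.1 c hc hJ
      exact ⟨r, q1, q2, q3, q4⟩) c hc hJ
    exact ⟨r, hr, hrJ, h1, h2⟩
  · exact Pool.Agent.H64.JS.con_cmp e5 e2 e4 e1 e3 hh (fun c hc hJ => by
      obtain ⟨y, hy1, hy2⟩ := (hcov.2 h0).1 c hc hJ
      exact ⟨y, hy1, om_oc hy2⟩) c hc hJ

/-- Let `2 ≤ d`, `m ≤ d`, `m ≠ 1`, and consider the rational maps `f = P/Q` of degree `d` with
`deg Q ≤ d - m` (`m = 0`: all rational maps of degree `d`; `m = d`: all polynomials of degree `d`).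
(1) If all maps of the family near `f` are conjugate to `f` on the Julia sets (`f` is J-stable) then every critical
point `c` of the Julia set of `f` is in the limit set of a recurrent critical point of the Julia set, and for `m = 0` the
connected component of `c` in the closure of the orbits of the Julia critical points (after time `0`) meets the limit set
of `c`; in particular `c` is recurrent if this closure is totally disconnected.
(2) For EVERY `f`: either `f` has these properties and its Fatou set is the union of the basins of the attracting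
cycles, or there are maps of the family arbitrarily near `f` with more critical points which are attracted by
attracting cycles. (3) The maps without the first property in (2) are nowhere dense in the family. -/
theorem result (hfat : FatF) (d m : ℕ) (hd : 2 ≤ d) (hm : m ≤ d) (hm1 : m ≠ 1) :
    (∀ (v : Pairs d m) (f : OnePoint ℂ → OnePoint ℂ), IsRational v f →
      (∃ ε : ℝ, 0 < ε ∧ ∀ w ∈ Metric.ball v ε, ∀ g, IsRational w g → JuliaConjugate f g) → Linked m f) ∧
    (∀ (v : Pairs d m) (f : OnePoint ℂ → OnePoint ℂ), IsRational v f →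
      (Linked m f ∧ ∀ z, z ∉ julia f → IsAttracted f z) ∨
        ∀ ε : ℝ, 0 < ε → ∃ w ∈ Metric.ball v ε, ∃ g, IsRational w g ∧ attractedNumber f < attractedNumber g) ∧
    IsNowhereDense {v : Pairs d m | ∃ f : OnePoint ℂ → OnePoint ℂ, IsRational v f ∧
      ¬ (Linked m f ∧ ∀ z, z ∉ julia f → IsAttracted f z)} :=
  ⟨fun _ _ hf h => by
    obtain ⟨ε, hε, hs⟩ := h
    exact stable hfat hd hm hm1 hf hε hs, fun _ _ hf => dich hfat hd hm hm1 hf, exc_nwd hfat hd hm hm1⟩

end Pool.Agent.H64.PF.Y
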